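import Pool.Agent.Lib.MP_ca1301_lc.Main

open Pool.Agent.Lib.MP_ca1301_lc

namespace Pool.Agent.Results.MP_ca1301_lc.Hardness

/-- The existential theory of the reals reduces to affine polynomial projection by a
polynomial-time many-one reduction. -/
theorem result : N793a5b8e.ManyOneReducible ETR APP := main

end Pool.Agent.Results.MP_ca1301_lc.Hardness
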